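import Pool.Agent.V11333.KacG8

/-!
# MP_a7dd25_pr: the constant term for real roots of Kac polynomials is not universal within the
class of admissible laws without an atom at zero
-/

set_option autoImplicit false

open MeasureTheory ProbabilityTheory Filter Topology Set
open scoped ENNReal NNReal

namespace Pool.Agent.Results.MP_a7dd25_pr.NonUniversalConstant

/-- The Kac polynomial `∑_{k ≤ n} ξ_k X^k`. -/
noncomputable def kacPoly (n : ℕ) (ξ : ℕ → ℝ) : Polynomial ℝ :=
  ∑ k ∈ Finset.range (n + 1), Polynomial.C (ξ k) * Polynomial.X ^ k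

/-- Number of real roots of a real polynomial, counted with multiplicity (`0` for the zero
polynomial). -/
noncomputable def numRealRoots (p : Polynomial ℝ) : ℕ := p.roots.card

/-- The law of a sequence `ξ_0, ξ_1, ...` of independent random variables with common law `μ`. -/
noncomputable def iidLaw (μ : Measure ℝ) : Measure (ℕ → ℝ) := Measure.infinitePi (fun _ : ℕ => μ)

/-- `E N_{P_n}(ℝ)`, with the roots counted with multiplicity. -/
noncomputable def expectedRoots (μ : Measure ℝ) (n : ℕ) : ℝ :=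
  ∫ ξ, (numRealRoots (kacPoly n ξ) : ℝ) ∂(iidLaw μ)

/-- `C` is the constant `C_ξ` of the law `μ`: for every `n` the number of real roots is
integrable, and `E N_{P_n}(ℝ) - (2/π) log n → C`. -/
def IsConstant (μ : Measure ℝ) (C : ℝ) : Prop :=
  (∀ n : ℕ, Integrable (fun ξ => (numRealRoots (kacPoly n ξ) : ℝ)) (iidLaw μ)) ∧
  Tendsto (fun n : ℕ => expectedRoots μ n - (2 / Real.pi) * Real.log n) atTop (𝓝 C)

open Pool.Agent.V11333.Kac in
lemma isConstant_of {ε L : ℝ} (h0 : 0 ≤ ε) (h1 : ε < 1)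
    (h : Tendsto (fun n : ℕ => ∫ ω, (Kac764.nz (Kac764.kac n ω) univ : ℝ) ∂(Kac764.PP (mix ε))
          - (2 / Real.pi) * Real.log n) atTop (𝓝 L)) : IsConstant (mix ε) L := by
  have hae : ∀ n : ℕ, (fun ξ => (numRealRoots (kacPoly n ξ) : ℝ)) =ᵐ[iidLaw (mix ε)]
      (fun ω => (Kac764.nz (Kac764.kac n ω) univ : ℝ)) := by
    intro n
    filter_upwards [ae_card h0 h1 n] with ω hω
    unfold numRealRoots
    have : (kacPoly n ω).roots.card = Kac764.nz (Kac764.kac n ω) univ := hω
    rw [this]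
  constructor
  · intro n
    have hm := Kac764.H4.measurable_nz_set n univ (Or.inl rfl)
    exact (Kac764.M2.nz_meas_int (mix ε) (mix_std h0 h1) n univ hm).congr (hae n).symm
  · refine h.congr fun n => ?_
    unfold expectedRoots
    rw [integral_congr_ae (hae n)]
    rfl

/-- **Non-universality.** There is a law `μ` (the mixture with weights `1/2`, `1/2` of the centred
Gaussian laws of variances `1 + 1/200` and `1 - 1/200`) with mean `0`, variance `1`, all moments
finite and no atoms (so `μ {0} = 0`), whose constant `C` is different from (in fact larger than)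
the constant `C_Gau` of the standard Gaussian law. -/
theorem result : ∃ μ : Measure ℝ, IsProbabilityMeasure μ ∧
    (∀ p : ℕ, Integrable (fun x : ℝ => |x| ^ p) μ) ∧ ∫ x, x ∂μ = 0 ∧ ∫ x, x ^ 2 ∂μ = 1 ∧
    μ {0} = 0 ∧ ∃ C CGau : ℝ, IsConstant μ C ∧ IsConstant (gaussianReal 0 1) CGau ∧
      CGau < C ∧ C ≠ CGau := by
  have h0 : (0 : ℝ) ≤ 1 / 200 := by norm_num
  have h1 : (1 / 200 : ℝ) < 1 := by norm_num
  have h2 : (1 / 200 : ℝ) ≤ 1 / 20 := by norm_num
  have hs := Pool.Agent.V11333.Kac.mix_std h0 h1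
  obtain ⟨L, hL1, hL2⟩ := Kac764.Fin.main _ hs
  have hs0 := Pool.Agent.V11333.Kac.mix_std (ε := 0) le_rfl one_pos
  obtain ⟨L0, hL01, hL02⟩ := Kac764.Fin.main _ hs0
  have e1 := Pool.Agent.V11333.Kac.L_mix h0 h2 hL1
  have e0 := Pool.Agent.V11333.Kac.L_gauss hL01
  have c1 := isConstant_of h0 h1 hL2
  have c0 := isConstant_of le_rfl one_pos hL02
  rw [Pool.Agent.V11333.Kac.mix_zero] at c0
  have a1 : (Pool.Agent.V11333.Kac.mix (1 / 200)) {0} = 0 :=
    Pool.Agent.V11333.Kac.mix_null h0 h1 (Set.countable_singleton 0)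
  have a0 : (gaussianReal 0 1) {(0 : ℝ)} = 0 := by
    have := Pool.Agent.V11333.Kac.mix_null (ε := 0) le_rfl one_pos (Set.countable_singleton 0)
    rwa [Pool.Agent.V11333.Kac.mix_zero] at this
  have r1 : (Pool.Agent.V11333.Kac.mix (1 / 200)).real {0} = 0 := by
    rw [measureReal_def, a1, ENNReal.toReal_zero]
  have r0 : (gaussianReal 0 1).real {(0 : ℝ)} = 0 := by
    rw [measureReal_def, a0, ENNReal.toReal_zero]
  have hpos : 0 < L := by
    refine lt_of_lt_of_le ?_ e1
    have := Real.pi_pos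
    have e : (4 : ℝ) / Real.pi * ((1 / 200) ^ 2 * (9 / 140) - 10 * (1 / 200) ^ 3)
        = 1 / Real.pi * (4 * ((1 / 200) ^ 2 * (9 / 140) - 10 * (1 / 200) ^ 3)) := by ring
    rw [e]
    refine mul_pos (by positivity) (by norm_num)
  rw [r1] at c1
  rw [r0, e0] at c0
  refine ⟨_, hs.prob, ?_, hs.mean, hs.var, a1, _, _, c1, c0, ?_, ?_⟩
  · intro p
    exact Pool.Agent.V11333.Kac.mix_integrable (Pool.Agent.V11333.Kac.gauss_pow_int _ p)
      (Pool.Agent.V11333.Kac.gauss_pow_int _ p)
  · linarith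
  · intro h
    linarith

end Pool.Agent.Results.MP_a7dd25_pr.NonUniversalConstant
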